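import Pool.Agent.Helper3.AK.Goals4

/-!
# Packet AK-LMB: the exponential bound
-/

set_option linter.unusedVariables false

namespace Pool.Agent.Helper3.AK

open Equiv

namespace LMBaux

variable {n : ℕ}

/-- the number of shallow riders at the ends of the blocks -/
noncomputable def AA (κ : ℕ) (x : Fin 2 → Alt n) (S : Finset (Fin n)) (b : ℕ)
    (w : List (Letter 2)) : ℝ :=
  ∑ i ∈ Finset.Ico 1 b, (sh κ x (gl w) S (i * (κ + 1)) : ℝ)

/-- the supermartingale -/
noncomputable def Psi (κ : ℕ) (x : Fin 2 → Alt n) (S : Finset (Fin n)) (D c : ℝ) (b : ℕ)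
    (w : List (Letter 2)) : ℝ :=
  Real.exp ((c * AA κ x S b w - pot x (gl w) S (b * (κ + 1))) / D)

theorem exp_neg_le {y : ℝ} (h0 : 0 ≤ y) (h1 : y ≤ 1) : Real.exp (-y) ≤ 1 - y / 2 := by
  rw [Real.exp_neg]
  have h2 : 1 + y ≤ Real.exp y := by linarith [Real.add_one_le_exp y]
  have h3 : (Real.exp y)⁻¹ ≤ (1 + y)⁻¹ := inv_anti₀ (by linarith) h2
  refine h3.trans ?_
  rw [inv_le_iff_one_le_mul₀ (by linarith)]
  nlinarith

theorem AA_prefix (κ : ℕ) (x : Fin 2 → Alt n) (S : Finset (Fin n)) (b : ℕ)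
    {w v : List (Letter 2)} (h : w <+: v) (hl : (b - 1) * (κ + 1) ≤ w.length) :
    AA κ x S b v = AA κ x S b w := by
  unfold AA
  refine Finset.sum_congr rfl fun i hi => ?_
  rw [Finset.mem_Ico] at hi
  have h1 : 1 ≤ i * (κ + 1) := Nat.mul_pos hi.1 (Nat.succ_pos _)
  have h2 : i * (κ + 1) ≤ w.length :=
    (Nat.mul_le_mul_right _ (by omega)).trans hl
  rw [sh_congr h1 fun s hs => gl_prefix h (by omega)]

theorem pot_prefix (x : Fin 2 → Alt n) (S : Finset (Fin n)) {w v : List (Letter 2)}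
    (h : w <+: v) {t : ℕ} (ht : t ≤ w.length) :
    pot x (gl v) S t = pot x (gl w) S t :=
  pot_congr fun s hs => gl_prefix h (by omega)

theorem pot_grow (h : S_LMA) (x : Fin 2 → Alt n) (S : Finset (Fin n)) (g : ℕ → Letter 2)
    (t s : ℕ) : pot x g S t ≤ pot x g S (t + s) ∧
      pot x g S (t + s) ≤ pot x g S t + 2 * S.card * s := by
  induction s with
  | zero => simp
  | succ s ih =>
    have := (h n x S).1 g (t + s)
    rw [← Nat.add_assoc]
    constructor
    · exact ih.1.trans this.1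
    · calc pot x g S (t + s + 1) ≤ pot x g S (t + s) + 2 * S.card := this.2
        _ ≤ pot x g S t + 2 * S.card * s + 2 * S.card := by omega
        _ = pot x g S t + 2 * S.card * (s + 1) := by ring

theorem block (h : S_LMA) (κ : ℕ) (x : Fin 2 → Alt n) (S : Finset (Fin n)) (hS : 1 ≤ S.card)
    (b : ℕ) (hb : 1 ≤ b) (w : List (Letter 2)) (hw : RedL w) (hwl : w.length = b * (κ + 1)) :
    ER (κ + 1) w (Psi κ x S (2 * S.card * (κ + 1)) (1 / (2 * (κ + 1) * 3 ^ (κ + 1))) (b + 1)) ≤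
      Psi κ x S (2 * S.card * (κ + 1)) (1 / (2 * (κ + 1) * 3 ^ (κ + 1))) b w := by
  set D : ℝ := 2 * S.card * (κ + 1) with hD
  set c : ℝ := 1 / (2 * (κ + 1) * 3 ^ (κ + 1)) with hc
  have hS' : (1 : ℝ) ≤ S.card := by exact_mod_cast hS
  have hD0 : 0 < D := by positivity
  have hc0 : 0 < c := by positivity
  set s : ℝ := (sh κ x (gl w) S (b * (κ + 1)) : ℝ) with hs
  have hwne : w ≠ [] := by
    rintro rfl
    simp only [List.length_nil] at hwl
    have : 0 < b * (κ + 1) := Nat.mul_pos hb (Nat.succ_pos _)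
    omega
  have hlma := (h n x S).2 κ w hwne hw
  rw [hwl] at hlma
  rw [← hs] at hlma
  -- pointwise bound
  have hpt : ∀ v, w <+: v → v.length = w.length + (κ + 1) → RedL v →
      Psi κ x S D c (b + 1) v ≤ (Psi κ x S D c b w * Real.exp (c * s / D)) *
        (1 + (-(1 / (2 * D))) * ((pot x (gl v) S (b * (κ + 1) + (κ + 1)) : ℝ) -
          pot x (gl w) S (b * (κ + 1)))) := by
    intro v hv hlen hr
    have e1 : AA κ x S (b + 1) v = AA κ x S b w + s := by
      rw [AA_prefix κ x S (b + 1) hv (by rw [hwl]; simp)]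
      unfold AA
      rw [Finset.sum_Ico_succ_top hb]
    have e2 := pot_grow h x S (gl v) (b * (κ + 1)) (κ + 1)
    rw [pot_prefix x S hv (t := b * (κ + 1)) (by omega)] at e2
    set J : ℝ := (pot x (gl v) S (b * (κ + 1) + (κ + 1)) : ℝ) -
      pot x (gl w) S (b * (κ + 1)) with hJ
    have hJ0 : 0 ≤ J := by
      have : (pot x (gl w) S (b * (κ + 1)) : ℝ) ≤ pot x (gl v) S (b * (κ + 1) + (κ + 1)) := by
        exact_mod_cast e2.1
      linarith
    have hJ1 : J ≤ D := by
      have : (pot x (gl v) S (b * (κ + 1) + (κ + 1)) : ℝ) ≤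
          pot x (gl w) S (b * (κ + 1)) + 2 * S.card * (κ + 1) := by
        exact_mod_cast e2.2
      rw [hJ, hD]
      linarith
    unfold Psi
    rw [e1]
    have e3 : (b + 1) * (κ + 1) = b * (κ + 1) + (κ + 1) := by ring
    rw [e3]
    have e4 : (c * (AA κ x S b w + s) - (pot x (gl v) S (b * (κ + 1) + (κ + 1)) : ℝ)) / D =
        (c * AA κ x S b w - (pot x (gl w) S (b * (κ + 1)) : ℝ)) / D + c * s / D + -(J / D) := by
      rw [hJ]
      field_simp
      ring
    rw [e4, Real.exp_add, Real.exp_add]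
    refine mul_le_mul_of_nonneg_left ?_ (by positivity)
    have := exp_neg_le (y := J / D) (by positivity) ((div_le_one hD0).2 hJ1)
    refine this.trans (le_of_eq ?_)
    field_simp
    ring
  refine (er_mono _ _ hw _ _ hpt).trans ?_
  rw [er_mul, er_add, er_const, er_mul]
  have hP : 0 < Psi κ x S D c b w := Real.exp_pos _
  have h5 : 1 + -(1 / (2 * D)) * ER (κ + 1) w (fun v =>
      (pot x (gl v) S (b * (κ + 1) + (κ + 1)) : ℝ) - pot x (gl w) S (b * (κ + 1))) ≤
      Real.exp (-(c * s / D)) := by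
    have h6 : s / ((κ + 1) * 3 ^ (κ + 1)) / (2 * D) = c * s / D := by
      rw [hc]
      field_simp
    have h7 : c * s / D ≤ 1 / (2 * D) * ER (κ + 1) w (fun v =>
      (pot x (gl v) S (b * (κ + 1) + (κ + 1)) : ℝ) - pot x (gl w) S (b * (κ + 1))) := by
      rw [← h6, div_eq_mul_one_div (s / _), mul_comm]
      exact mul_le_mul_of_nonneg_left hlma (by positivity)
    have h8 := Real.add_one_le_exp (-(c * s / D))
    linarith
  calc (Psi κ x S D c b w * Real.exp (c * s / D)) * (1 + -(1 / (2 * D)) * ER (κ + 1) w (fun v =>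
      (pot x (gl v) S (b * (κ + 1) + (κ + 1)) : ℝ) - pot x (gl w) S (b * (κ + 1))))
      ≤ (Psi κ x S D c b w * Real.exp (c * s / D)) * Real.exp (-(c * s / D)) :=
        mul_le_mul_of_nonneg_left h5 (by positivity)
    _ = Psi κ x S D c b w := by
        rw [mul_assoc, ← Real.exp_add, add_neg_cancel, Real.exp_zero, mul_one]

theorem Psi_le_one (κ : ℕ) (x : Fin 2 → Alt n) (S : Finset (Fin n)) (D c : ℝ) (hD : 0 < D)
    (b : ℕ) (hb : b ≤ 1) (w : List (Letter 2)) : Psi κ x S D c b w ≤ 1 := by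
  unfold Psi AA
  rw [Finset.Ico_eq_empty_of_le hb, Finset.sum_empty, mul_zero, zero_sub]
  rw [Real.exp_le_one_iff]
  have : (0 : ℝ) ≤ (pot x (gl w) S (b * (κ + 1)) : ℝ) := Nat.cast_nonneg _
  exact div_nonpos_of_nonpos_of_nonneg (by linarith) hD.le

theorem blocks (h : S_LMA) (κ : ℕ) (x : Fin 2 → Alt n) (S : Finset (Fin n)) (hS : 1 ≤ S.card)
    (b : ℕ) :
    ER (b * (κ + 1)) [] (Psi κ x S (2 * S.card * (κ + 1)) (1 / (2 * (κ + 1) * 3 ^ (κ + 1))) b) ≤
      1 := by
  have hS' : (1 : ℝ) ≤ S.card := by exact_mod_cast hS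
  have hD0 : (0 : ℝ) < 2 * S.card * (κ + 1) := by positivity
  have triv : ∀ b : ℕ, b ≤ 1 → ER (b * (κ + 1)) []
      (Psi κ x S (2 * S.card * (κ + 1)) (1 / (2 * (κ + 1) * 3 ^ (κ + 1))) b) ≤ 1 := by
    intro b hb
    refine (er_mono _ _ redL_nil _ (fun _ => 1) fun v _ _ _ =>
      Psi_le_one κ x S _ _ hD0 b hb v).trans ?_
    rw [er_const]
  induction b with
  | zero => exact triv 0 (by omega)
  | succ b ih =>
    rcases Nat.eq_zero_or_pos b with rfl | hb
    · exact triv 1 le_rfl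
    · have e : (b + 1) * (κ + 1) = b * (κ + 1) + (κ + 1) := by ring
      rw [e, er_comp]
      refine (er_mono _ _ redL_nil _ _ fun v _ hlen hr => ?_).trans ih
      refine block h κ x S hS b hb v hr ?_
      simpa using hlen

end LMBaux

open LMBaux

theorem lmb (h : S_LMA) : S_LMB := by
  intro n x S κ m z hS hz
  have hS' : (1 : ℝ) ≤ S.card := by exact_mod_cast hS
  have hD0 : (0 : ℝ) < 2 * S.card * (κ + 1) := by positivity
  set D : ℝ := 2 * S.card * (κ + 1) with hD
  set c : ℝ := 1 / (2 * (κ + 1) * 3 ^ (κ + 1)) with hc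
  have hc0 : 0 < c := by positivity
  have hm : m = m / (κ + 1) * (κ + 1) + m % (κ + 1) := (Nat.div_add_mod' m (κ + 1)).symm
  set B : ℕ := m / (κ + 1) with hB
  set q : ℕ := m % (κ + 1) with hq
  have key : ∀ v : List (Letter 2), RedL v → v.length = B * (κ + 1) → ∀ w, v <+: w →
      w.length = v.length + q → RedL w →
      (open Classical in if
        2 * (κ + 1) * 3 ^ (κ + 1) * ((pot x (gl w) S m : ℝ) + 2 * S.card * (κ + 1) * z) <
        ∑ b ∈ Finset.Ico 1 B, (sh κ x (gl w) S (b * (κ + 1)) : ℝ) then (1 : ℝ) else 0) ≤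
      Real.exp (-z) * Psi κ x S D c B v := by
    intro v hv hvl w hvw hwl hw
    split_ifs with hif
    · have e1 : AA κ x S B w = AA κ x S B v := by
        refine AA_prefix κ x S B hvw ?_
        rw [hvl]
        exact Nat.mul_le_mul_right _ (Nat.sub_le _ _)
      have e2 : ∑ b ∈ Finset.Ico 1 B, (sh κ x (gl w) S (b * (κ + 1)) : ℝ) = AA κ x S B v := by
        rw [← e1]; rfl
      rw [e2, ← hD] at hif
      have e3 := (pot_grow h x S (gl w) (B * (κ + 1)) q).1
      rw [← hm, pot_prefix x S hvw (t := B * (κ + 1)) (by omega)] at e3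
      have e4 : (pot x (gl v) S (B * (κ + 1)) : ℝ) ≤ pot x (gl w) S m := by exact_mod_cast e3
      have e5 : (pot x (gl w) S m : ℝ) + D * z < c * AA κ x S B v := by
        have : c * (2 * (κ + 1) * 3 ^ (κ + 1) * ((pot x (gl w) S m : ℝ) + D * z)) =
            (pot x (gl w) S m : ℝ) + D * z := by
          rw [hc]; field_simp
        rw [← this]
        exact mul_lt_mul_of_pos_left hif hc0
      unfold Psi
      rw [← Real.exp_add]
      rw [← Real.exp_zero]
      apply Real.exp_le_exp.2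
      have e6 : z ≤ (c * AA κ x S B v - (pot x (gl v) S (B * (κ + 1)) : ℝ)) / D := by
        rw [le_div_iff₀ hD0]
        linarith
      linarith
    · unfold Psi
      positivity
  have e0 : ER m [] (fun w => open Classical in if
      2 * (κ + 1) * 3 ^ (κ + 1) * ((pot x (gl w) S m : ℝ) + 2 * S.card * (κ + 1) * z) <
      ∑ b ∈ Finset.Ico 1 B, (sh κ x (gl w) S (b * (κ + 1)) : ℝ) then 1 else 0) =
      ER (B * (κ + 1)) [] (fun v => ER q v (fun w => open Classical in if
      2 * (κ + 1) * 3 ^ (κ + 1) * ((pot x (gl w) S m : ℝ) + 2 * S.card * (κ + 1) * z) <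
      ∑ b ∈ Finset.Ico 1 B, (sh κ x (gl w) S (b * (κ + 1)) : ℝ) then 1 else 0)) := by
    rw [← er_comp, ← hm]
  rw [e0]
  have h1 : ER (B * (κ + 1)) [] (fun v => ER q v (fun w => open Classical in if
      2 * (κ + 1) * 3 ^ (κ + 1) * ((pot x (gl w) S m : ℝ) + 2 * S.card * (κ + 1) * z) <
      ∑ b ∈ Finset.Ico 1 B, (sh κ x (gl w) S (b * (κ + 1)) : ℝ) then 1 else 0)) ≤
      ER (B * (κ + 1)) [] (fun v => Real.exp (-z) * Psi κ x S D c B v) := by
    refine er_mono _ _ redL_nil _ _ fun v _ hlen hr => ?_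
    have hvl : v.length = B * (κ + 1) := by simpa using hlen
    refine (er_mono q v hr _ (fun _ => Real.exp (-z) * Psi κ x S D c B v)
      (key v hr hvl)).trans ?_
    rw [er_const]
  refine h1.trans ?_
  rw [er_mul]
  calc Real.exp (-z) * ER (B * (κ + 1)) [] (Psi κ x S D c B) ≤ Real.exp (-z) * 1 :=
        mul_le_mul_of_nonneg_left (blocks h κ x S hS B) (Real.exp_pos _).le
    _ = Real.exp (-z) := mul_one _

end Pool.Agent.Helper3.AK
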